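import Pool.Agent.H4.TA.Targets

/-!
# The boundary of the region of staying probabilities for long walks (MP_183c3b_co): row RNW
-/

set_option autoImplicit false

open Finset Pool.Agent.H43.TC

namespace Pool.Agent.H79.TA

open Pool.Agent.H4.TA

theorem pf_RNW (hREN : T_REN) (hQAN : T_QAN) (hPLC : T_PLC) : T_RNW := by
  intro k hk
  have h0 : 0 < k := by omega
  obtain ⟨h1, h2, h3, h4, h5⟩ := hQAN k h0
  exact { pos := by exact_mod_cast h0, p0 := h1, pn := h5, pb := fun j => hPLC k j hk,
          q0 := h2, qa := h3, qn := h4, re := fun t => hREN k t h0 }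

end Pool.Agent.H79.TA
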