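import Pool.Agent.H4.TA.Targets2
import Pool.Agent.H20.TAS.TWO

/-!
# The boundary of the region of staying probabilities for long walks (MP_183c3b_co): row THR
-/

set_option autoImplicit false

open Finset Filter Topology Pool.Agent.H43.TC

namespace Pool.Agent.H79.TA

open Pool.Agent.H4.TA Pool.Agent.H20.TAS

theorem cube_le {c M : ℝ} {n : ℕ} (hc : 0 ≤ c) (hM : 0 < M) (h : c ^ 2 * ((n : ℝ) + 1) ≤ M ^ 2) :
    (c / M) ^ 3 ≤ ((n : ℝ) + 1) ^ (-(3 / 2) : ℝ) := by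
  have hn : (0 : ℝ) < (n : ℝ) + 1 := by positivity
  set r : ℝ := ((n : ℝ) + 1) ^ (-(1 / 2) : ℝ) with hr
  have hr0 : 0 < r := Real.rpow_pos_of_pos hn _
  have hr2 : r ^ 2 = ((n : ℝ) + 1)⁻¹ := by
    rw [hr, ← Real.rpow_natCast, ← Real.rpow_mul hn.le, ← Real.rpow_neg_one]
    norm_num
  have hr3 : r ^ 3 = ((n : ℝ) + 1) ^ (-(3 / 2) : ℝ) := by
    rw [hr, ← Real.rpow_natCast, ← Real.rpow_mul hn.le]
    norm_num
  have h1 : (c / M) ^ 2 ≤ r ^ 2 := by
    rw [hr2, div_pow, div_le_iff₀ (by positivity), inv_mul_eq_div, le_div_iff₀ hn]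
    exact h
  have h2 : c / M ≤ r := by
    have h3 : 0 ≤ c / M := by positivity
    nlinarith
  rw [← hr3]
  exact pow_le_pow_left₀ (by positivity) h2 3

theorem amgm3 {x y z : ℝ} (hx : 0 ≤ x) (hy : 0 ≤ y) (hz : 0 ≤ z) :
    x * y * z ≤ (x ^ 3 + y ^ 3 + z ^ 3) / 3 := by
  have h : x ^ 3 + y ^ 3 + z ^ 3 - 3 * (x * y * z) =
      (x + y + z) * ((x - y) ^ 2 + (y - z) ^ 2 + (z - x) ^ 2) / 2 := by ring
  have h2 : 0 ≤ (x + y + z) * ((x - y) ^ 2 + (y - z) ^ 2 + (z - x) ^ 2) / 2 := by positivity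
  linarith

theorem pf_THR (hSGN : T_SGN) : T_THR := by
  classical
  intro k j d a b e hab hae hbe
  have h1 := cnt_le hSGN j (fun l => d l = a)
  have h2 := cnt_le hSGN j (fun l => d l = b)
  have h2' := cnt_le hSGN j (fun l => d l = e)
  have hdep : ∀ a : Fin k, ∀ ε ε' : Fin j → Bool, (∀ l, d l = a → ε l = ε' l) →
      ∑ l, (if d l = a then sgz (ε l) else 0) = 0 →
      ∑ l, (if d l = a then sgz (ε' l) else 0) = 0 := by
    intro a ε ε' h hP
    refine Eq.trans (Finset.sum_congr rfl fun l _ => ?_) hP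
    by_cases hl : d l = a
    · rw [if_pos hl, if_pos hl, h l hl]
    · rw [if_neg hl, if_neg hl]
  have h3 := both_le j (fun l => d l = a)
    (fun ε => ∑ l, (if d l = a then sgz (ε l) else 0) = 0)
    (fun ε => ∑ l, (if d l = b then sgz (ε l) else 0) = 0 ∧
      ∑ l, (if d l = e then sgz (ε l) else 0) = 0)
    (fun ε ε' h hP => hdep a ε ε' h hP)
    (fun ε ε' h hQ => ⟨hdep b ε ε' (fun l hl => h l fun h9 => hab (h9.symm.trans hl)) hQ.1,
      hdep e ε ε' (fun l hl => h l fun h9 => hae (h9.symm.trans hl)) hQ.2⟩)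
  have h3' := both_le j (fun l => d l = b)
    (fun ε => ∑ l, (if d l = b then sgz (ε l) else 0) = 0)
    (fun ε => ∑ l, (if d l = e then sgz (ε l) else 0) = 0)
    (fun ε ε' h hP => hdep b ε ε' h hP)
    (fun ε ε' h hQ => hdep e ε ε' (fun l hl => h l fun h9 => hbe (h9.symm.trans hl)) hQ)
  have h4 : ∑ ε : Fin j → Bool, ind (pos (fun l => (d l, ε l) : Wd k j) j = 0) ≤
      ((univ.filter fun ε : Fin j → Bool =>
        (∑ l, (if d l = a then sgz (ε l) else 0) = 0) ∧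
        (∑ l, (if d l = b then sgz (ε l) else 0) = 0 ∧
          ∑ l, (if d l = e then sgz (ε l) else 0) = 0)).card : ℝ) := by
    rw [Finset.card_filter]
    push_cast
    refine Finset.sum_le_sum fun ε _ => ?_
    unfold ind
    by_cases h : pos (fun l => (d l, ε l) : Wd k j) j = 0
    · rw [if_pos h]
      have ha := congrFun h a
      have hb := congrFun h b
      have he := congrFun h e
      rw [pos_coord] at ha hb he
      rw [if_pos ⟨ha, hb, he⟩]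
    · rw [if_neg h]
      positivity
  refine h4.trans ?_
  set ca : ℝ := ((univ.filter fun ε : Fin j → Bool =>
    ∑ l, (if d l = a then sgz (ε l) else 0) = 0).card : ℝ) with hca
  set cb : ℝ := ((univ.filter fun ε : Fin j → Bool =>
    ∑ l, (if d l = b then sgz (ε l) else 0) = 0).card : ℝ) with hcb
  set ce : ℝ := ((univ.filter fun ε : Fin j → Bool =>
    ∑ l, (if d l = e then sgz (ε l) else 0) = 0).card : ℝ) with hce
  set cbe : ℝ := ((univ.filter fun ε : Fin j → Bool =>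
    ∑ l, (if d l = b then sgz (ε l) else 0) = 0 ∧
      ∑ l, (if d l = e then sgz (ε l) else 0) = 0).card : ℝ) with hcbe
  set cc : ℝ := ((univ.filter fun ε : Fin j → Bool =>
    (∑ l, (if d l = a then sgz (ε l) else 0) = 0) ∧
    (∑ l, (if d l = b then sgz (ε l) else 0) = 0 ∧
      ∑ l, (if d l = e then sgz (ε l) else 0) = 0)).card : ℝ) with hcc
  have h5 : cc * 2 ^ j ≤ ca * cbe := by
    rw [hca, hcbe, hcc]
    exact_mod_cast h3
  have h5' : cbe * 2 ^ j ≤ cb * ce := by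
    rw [hcb, hce, hcbe]
    exact_mod_cast h3'
  have hca0 : 0 ≤ ca := Nat.cast_nonneg _
  have hcb0 : 0 ≤ cb := Nat.cast_nonneg _
  have hce0 : 0 ≤ ce := Nat.cast_nonneg _
  have h2j : (0 : ℝ) < 2 ^ j := by positivity
  have h4j : (4 : ℝ) ^ j = (2 ^ j) ^ 2 := by
    rw [← pow_mul, mul_comm j 2, pow_mul]
    norm_num
  rw [h4j] at h1 h2 h2'
  have g1 : (ca / 2 ^ j) ^ 3 ≤ ((dn d a : ℝ) + 1) ^ (-(3 / 2) : ℝ) := cube_le hca0 h2j h1
  have g2 : (cb / 2 ^ j) ^ 3 ≤ ((dn d b : ℝ) + 1) ^ (-(3 / 2) : ℝ) := cube_le hcb0 h2j h2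
  have g3 : (ce / 2 ^ j) ^ 3 ≤ ((dn d e : ℝ) + 1) ^ (-(3 / 2) : ℝ) := cube_le hce0 h2j h2'
  have h6 : cc / 2 ^ j ≤ ca / 2 ^ j * (cb / 2 ^ j) * (ce / 2 ^ j) := by
    rw [div_mul_div_comm, div_mul_div_comm, div_le_div_iff₀ h2j (by positivity)]
    have h7 : cc * 2 ^ j * 2 ^ j ≤ ca * cb * ce := by
      calc cc * 2 ^ j * 2 ^ j ≤ ca * cbe * 2 ^ j := mul_le_mul_of_nonneg_right h5 h2j.le
        _ = ca * (cbe * 2 ^ j) := by ring
        _ ≤ ca * (cb * ce) := mul_le_mul_of_nonneg_left h5' hca0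
        _ = ca * cb * ce := by ring
    calc cc * (2 ^ j * 2 ^ j * 2 ^ j) = (cc * 2 ^ j * 2 ^ j) * 2 ^ j := by ring
      _ ≤ ca * cb * ce * 2 ^ j := mul_le_mul_of_nonneg_right h7 h2j.le
  have h8 := amgm3 (x := ca / 2 ^ j) (y := cb / 2 ^ j) (z := ce / 2 ^ j) (by positivity)
    (by positivity) (by positivity)
  have h9 : cc / 2 ^ j ≤ (((dn d a : ℝ) + 1) ^ (-(3 / 2) : ℝ) +
      ((dn d b : ℝ) + 1) ^ (-(3 / 2) : ℝ) + ((dn d e : ℝ) + 1) ^ (-(3 / 2) : ℝ)) / 3 := by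
    linarith
  rw [div_le_iff₀ h2j] at h9
  calc cc ≤ _ := h9
    _ = _ := by ring

end Pool.Agent.H79.TA
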